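import Pool.Agent.N992.WL.Defs

/-!
# Hyodo-Kato cohomology over `p`-adic fields

`K` is a finite extension of `ℚ_p` with residue field of `q = p ^ f` elements and `K_0 = W(k)[1/p]`.
-/

set_option autoImplicit false

namespace Pool.Agent.N992.WP

open Pool.Agent.N522.LogT Pool.Agent.N992.WL

noncomputable section

/-- A `(φ, N)`-module over `K_0`. -/
structure PhiModule (K : Type) [Field K] where
  V : Type
  [grp : AddCommGroup V]
  [mod : Module K V]
  /-- the semilinear Frobenius -/
  phi : V → V
  /-- its power `φ ^ f`, which is linear -/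
  F : V →ₗ[K] V
  N : V →ₗ[K] V

attribute [instance] PhiModule.grp PhiModule.mod

/-- the axioms of a `(φ, N)`-module, for the Frobenius `σ` of `K_0`, with `φ ^ f = F` -/
structure IsPhiModule (p f : ℕ) {K : Type} [Field K] (σ : K →+* K) (A : PhiModule K) : Prop where
  add : ∀ x y, A.phi (x + y) = A.phi x + A.phi y
  semilinear : ∀ (a : K) x, A.phi (a • x) = σ a • A.phi x
  power : ∀ x, A.F x = A.phi^[f] x
  /-- `N φ = p φ N` -/
  monodromy : ∀ x, A.N (A.phi x) = (p : K) • A.phi (A.N x)

/-- The extension of the scalars to `ℂ` by an embedding of `K_0`, with the linear operators `φ ^ f` and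
`N`. -/
def ext {K : Type} [Field K] (ι : K →+* ℂ) (A : PhiModule K) : Rep :=
  letI := ι.toAlgebra
  { V := TensorProduct K ℂ A.V
    F := A.F.baseChange ℂ
    N := A.N.baseChange ℂ
    s := 1 }

/-- Hyodo-Kato cohomology. -/
structure PadicTheory where
  p : ℕ
  f : ℕ
  /-- the field `K_0 = W(k)[1/p]` -/
  K : Type
  [field : Field K]
  /-- the Frobenius of `K_0` -/
  σ : K →+* K
  /-- an embedding of `K_0` -/
  ι : K →+* ℂ
  /-- the pairs of a finite totally ramified extension `L` of `K` and a smooth projective scheme `X` over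
  `L`, of pure dimension, such that the `p`-adic cohomology of `X` is semistable; for each smooth
  projective `X` over `K` there is an `L` such that `(L, X_L)` is of this kind -/
  Obj : Type
  /-- `D X m` is the Hyodo-Kato cohomology `H^m_HK(X) = D_st(H^m(X))` -/
  D : Obj → ℕ → PhiModule K
  /-- `Z` is over the same field `L` as `X`, has good reduction, and is of dimension `e` -/
  IsGood : Obj → Obj → ℕ → Prop

attribute [instance] PadicTheory.field

/-- the same, with the scalars extended to `ℂ` -/
def PadicTheory.toLocal (T : PadicTheory) : LocalTheory where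
  q := T.p ^ T.f
  Obj := T.Obj
  H X m := ext T.ι (T.D X m)
  IsGood := T.IsGood

/-- The properties of Hyodo-Kato cohomology that are used; all of them are known. The first three say
that `σ` is of order `f`. -/
structure IsPadicTheory (T : PadicTheory) : Prop where
  pos : 0 < T.f
  order : ∀ a, T.σ^[T.f] a = a
  distinct : ∀ i j, i < j → j < T.f → ∃ a, T.σ^[i] a ≠ T.σ^[j] a
  rep : ∀ X m, IsPhiModule T.p T.f T.σ (T.D X m)
  isLocal : IsLocalTheory T.toLocal

/-- `D(H^m(X)(r))^(φ = 1, N = 0) = 0`: there is no `v ≠ 0` in `H^m_HK(X)` with `φ v = p ^ r v` and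
`N v = 0`. -/
def NoCrystalline (T : PadicTheory) (X : T.Obj) (m r : ℕ) : Prop :=
  ∀ v : (T.D X m).V, (T.D X m).phi v = (T.p : T.K) ^ r • v → (T.D X m).N v = 0 → v = 0

end

end Pool.Agent.N992.WP
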