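import Pool.Agent.N992.WL.Main
import Pool.Agent.N992.WP.Defs

/-!
# The `p`-adic monodromy-weight conjecture and invariants
-/

set_option autoImplicit false

namespace Pool.Agent.N992.WP

open Module Pool.Agent.N522.LogT Pool.Agent.N992.WL

/-! ### Descent along the Frobenius of `K_0` -/

section Descent

variable {K : Type} [Field K] {σ : K →+* K} {p f : ℕ} {A : PhiModule K}

/-- powers of `σ` as characters -/
def chi (σ : K →+* K) (i : ℕ) : K →* K where
  toFun := σ^[i]
  map_one' := iterate_map_one σ i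
  map_mul' := iterate_map_mul σ i

theorem exists_descent (hA : IsPhiModule p f σ A) (hp : (p : K) ≠ 0) (hf : 0 < f)
    (ho : ∀ a, σ^[f] a = a) (hd : ∀ i j, i < j → j < f → ∃ a, σ^[i] a ≠ σ^[j] a) {r : ℕ} {v : A.V}
    (hv : v ≠ 0) (hF : A.F v = (p : K) ^ (f * r) • v) (hN : A.N v = 0) :
    ∃ w, w ≠ 0 ∧ A.phi w = (p : K) ^ r • w ∧ A.N w = 0 := by
  have hpr : (p : K) ^ r ≠ 0 := pow_ne_zero r hp
  obtain ⟨ψ, hψ⟩ : ∃ ψ : A.V → A.V, ∀ x, ψ x = ((p : K) ^ r)⁻¹ • A.phi x := ⟨_, fun x => rfl⟩
  have hσp : ∀ k, σ (((p : K) ^ k)⁻¹) = ((p : K) ^ k)⁻¹ := by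
    intro k
    rw [map_inv₀, map_pow, map_natCast]
  have hφ0 : A.phi 0 = 0 := by
    have := hA.semilinear 0 0
    rw [zero_smul, map_zero, zero_smul] at this
    exact this
  have hψs : ∀ (a : K) x, ψ (a • x) = σ a • ψ x := by
    intro a x
    rw [hψ, hψ, hA.semilinear, smul_comm]
  have hψa : ∀ x y, ψ (x + y) = ψ x + ψ y := by
    intro x y
    rw [hψ, hψ, hψ, hA.add, smul_add]
  have hψ0 : ψ 0 = 0 := by rw [hψ, hφ0, smul_zero]
  have hψi : ∀ (i : ℕ) (a : K) x, ψ^[i] (a • x) = σ^[i] a • ψ^[i] x := by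
    intro i
    induction i with
    | zero => intro a x; rfl
    | succ i ih =>
      intro a x
      rw [Function.iterate_succ_apply, Function.iterate_succ_apply, Function.iterate_succ_apply,
        hψs, ih]
  have hψφ : ∀ (i : ℕ) x, ψ^[i] x = ((p : K) ^ (i * r))⁻¹ • A.phi^[i] x := by
    intro i
    induction i with
    | zero => intro x; simp
    | succ i ih =>
      intro x
      rw [Function.iterate_succ_apply', ih, hψs, hσp, hψ, Function.iterate_succ_apply', smul_smul,
        ← mul_inv, ← pow_add]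
      congr 3
      ring
  have hψf : ψ^[f] v = v := by
    rw [hψφ, ← hA.power, hF, smul_smul, inv_mul_cancel₀ (pow_ne_zero _ hp), one_smul]
  have hNi : ∀ (i : ℕ) x, A.N x = 0 → A.N (ψ^[i] x) = 0 := by
    intro i
    induction i with
    | zero => intro x hx; exact hx
    | succ i ih =>
      intro x hx
      rw [Function.iterate_succ_apply', hψ, map_smul, hA.monodromy, ih x hx, hφ0, smul_zero,
        smul_zero]
  have hψsum : ∀ (s : Finset ℕ) (g : ℕ → A.V), ψ (∑ i ∈ s, g i) = ∑ i ∈ s, ψ (g i) := by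
    classical
    intro s g
    induction s using Finset.induction_on with
    | empty => rw [Finset.sum_empty, Finset.sum_empty, hψ0]
    | insert a s ha ih => rw [Finset.sum_insert ha, Finset.sum_insert ha, hψa, ih]
  obtain ⟨u, hu⟩ : ∃ u : K → A.V, ∀ a, u a = ∑ i ∈ Finset.range f, ψ^[i] (a • v) :=
    ⟨_, fun a => rfl⟩
  have hfix : ∀ a, ψ (u a) = u a := by
    intro a
    have h1 : ψ (u a) = ∑ i ∈ Finset.range f, ψ^[i + 1] (a • v) := by
      rw [hu, hψsum]
      exact Finset.sum_congr rfl fun i _ => (Function.iterate_succ_apply' ψ i _).symm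
    have h2 := Finset.sum_range_succ (fun i => ψ^[i] (a • v)) f
    have h3 := Finset.sum_range_succ' (fun i => ψ^[i] (a • v)) f
    rw [h2] at h3
    have h4 : ψ^[f] (a • v) = a • v := by rw [hψi, ho, hψf]
    rw [h4] at h3
    change _ = _ + (a • v) at h3
    rw [h1, hu]
    exact (add_right_cancel h3).symm
  have hne : ∃ a, u a ≠ 0 := by
    by_contra hall
    push Not at hall
    have hdual : ∀ l : Module.Dual K A.V, l v = 0 := by
      intro l
      have hinj : Function.Injective fun i : Fin f => chi σ i := by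
        intro i j hij
        by_contra hne
        rcases lt_or_gt_of_ne (fun h => hne (Fin.ext h) : (i : ℕ) ≠ j) with h | h
        · obtain ⟨a, ha⟩ := hd i j h j.2
          exact ha (DFunLike.congr_fun hij a)
        · obtain ⟨a, ha⟩ := hd j i h i.2
          exact ha (DFunLike.congr_fun hij a).symm
      have hli := (linearIndependent_monoidHom K K).comp _ hinj
      rw [Fintype.linearIndependent_iff] at hli
      have h0 := hli (fun i => l (ψ^[i] v)) (by
        funext a
        rw [Finset.sum_apply, Pi.zero_apply]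
        have h1 := congrArg l (hall a)
        rw [hu, map_zero, map_sum, Finset.sum_range] at h1
        rw [← h1]
        refine Finset.sum_congr rfl fun i _ => ?_
        rw [hψi, map_smul, smul_eq_mul, mul_comm]
        rfl) ⟨0, hf⟩
      exact h0
    exact hv ((Module.forall_dual_apply_eq_zero_iff K v).1 hdual)
  obtain ⟨a, ha⟩ := hne
  refine ⟨u a, ha, ?_, ?_⟩
  · have h1 := hfix a
    rw [hψ] at h1
    conv_rhs => rw [← h1, smul_smul, mul_inv_cancel₀ hpr, one_smul]
  · rw [hu, map_sum]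
    refine Finset.sum_eq_zero fun i _ => hNi i _ ?_
    rw [map_smul, hN, smul_zero]

end Descent

/-! ### Extension of scalars -/

section Ext

variable {K : Type} [Field K] [Algebra K ℂ] {V : Type} [AddCommGroup V] [Module K V]

/-- evaluation of a functional on the first factor -/
noncomputable def contr (μ : ℂ →ₗ[K] K) : TensorProduct K ℂ V →ₗ[K] V :=
  (TensorProduct.lid K V).toLinearMap ∘ₗ LinearMap.rTensor V μ

theorem contr_tmul (μ : ℂ →ₗ[K] K) (z : ℂ) (v : V) :
    contr μ (TensorProduct.tmul K z v) = μ z • v := by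
  simp [contr]

theorem contr_baseChange (μ : ℂ →ₗ[K] K) (F : V →ₗ[K] V) (w : TensorProduct K ℂ V) :
    contr μ (F.baseChange ℂ w) = F (contr μ w) := by
  induction w using TensorProduct.induction_on with
  | zero => simp
  | tmul z v => rw [LinearMap.baseChange_tmul, contr_tmul, contr_tmul, map_smul]
  | add x y hx hy => rw [map_add, map_add, map_add, map_add, hx, hy]

theorem eq_zero_of_contr (w : TensorProduct K ℂ V) (h : ∀ μ : ℂ →ₗ[K] K, contr μ w = 0) :
    w = 0 := by
  let ℬ := Module.Basis.ofVectorSpace K ℂ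
  have h1 : ∀ (w : TensorProduct K ℂ V) i,
      TensorProduct.equivFinsuppOfBasisLeft ℬ w i = contr (ℬ.coord i) w := by
    intro w i
    induction w using TensorProduct.induction_on with
    | zero => simp
    | tmul z v => rw [contr_tmul, TensorProduct.equivFinsuppOfBasisLeft_apply_tmul_apply]; rfl
    | add x y hx hy => rw [map_add, map_add, Finsupp.add_apply, hx, hy]
  apply (TensorProduct.equivFinsuppOfBasisLeft (N := V) ℬ).injective
  rw [map_zero]
  ext i
  rw [h1, h]
  rfl

theorem exists_rational {F N : V →ₗ[K] V} {n : ℕ} {w : TensorProduct K ℂ V} (hw : w ≠ 0)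
    (hF : F.baseChange ℂ w = (n : ℂ) • w) (hN : N.baseChange ℂ w = 0) :
    ∃ v, v ≠ 0 ∧ F v = (n : K) • v ∧ N v = 0 := by
  have h1 : ∃ μ : ℂ →ₗ[K] K, contr μ w ≠ 0 := by
    by_contra hall
    push Not at hall
    exact hw (eq_zero_of_contr w hall)
  obtain ⟨μ, hμ⟩ := h1
  refine ⟨contr μ w, hμ, ?_, ?_⟩
  · rw [← contr_baseChange, hF, Nat.cast_smul_eq_nsmul, map_nsmul, Nat.cast_smul_eq_nsmul]
  · rw [← contr_baseChange, hN, map_zero]

theorem one_tmul_eq_zero {v : V} (h : TensorProduct.tmul K (1 : ℂ) v = 0) : v = 0 := by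
  have h1 : ∃ μ : Module.Dual K ℂ, μ 1 ≠ 0 := by
    by_contra hall
    push Not at hall
    exact one_ne_zero ((Module.forall_dual_apply_eq_zero_iff K (1 : ℂ)).1 hall)
  obtain ⟨μ, hμ⟩ := h1
  have h2 := contr_tmul μ 1 v
  rw [h, map_zero] at h2
  exact (smul_eq_zero.1 h2.symm).resolve_left hμ

end Ext

/-! ### The theorem -/

variable {T : PadicTheory} (hT : IsPadicTheory T)

include hT

theorem p_ne : T.p ≠ 0 := by
  intro h
  have h1 := hT.isLocal.one_lt
  change 1 < T.p ^ T.f at h1
  rw [h, zero_pow hT.pos.ne'] at h1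
  omega

theorem p_ne' : (T.p : T.K) ≠ 0 := by
  intro h
  have h1 := congrArg T.ι h
  rw [map_natCast, map_zero] at h1
  exact p_ne hT (by exact_mod_cast h1)

theorem noInvariants {X : T.Obj} {m r : ℕ} (h : NoCrystalline T X m r) :
    NoInvariants T.toLocal X m r := by
  intro v hv
  obtain ⟨h1, h2, _⟩ := (tw_inv hT.isLocal r (A := T.toLocal.H X m) v).1 hv
  by_contra hne
  let _ := T.ι.toAlgebra
  have h3 : (T.D X m).F.baseChange ℂ v = ((T.p ^ (T.f * r) : ℕ) : ℂ) • v := by
    refine Eq.trans h1 ?_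
    congr 1
    change (((T.p ^ T.f : ℕ) : ℂ)) ^ r = _
    push_cast
    ring
  obtain ⟨w, hw, hF, hN⟩ := exists_rational (V := (T.D X m).V) (w := v) hne h3 h2
  have hF' : (T.D X m).F w = (T.p : T.K) ^ (T.f * r) • w := by
    rw [hF]
    push_cast
    rfl
  obtain ⟨u, hu, h4, h5⟩ := exists_descent (hT.rep X m) (p_ne' hT) hT.pos hT.order hT.distinct
    hw hF' hN
  exact hu (h u h4 h5)

theorem noCrystalline {X : T.Obj} {m r : ℕ} (h : NoInvariants T.toLocal X m r) :
    NoCrystalline T X m r := by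
  intro v h1 h2
  let _ := T.ι.toAlgebra
  have hA := hT.rep X m
  have hpow : ∀ i : ℕ, (T.D X m).phi^[i] v = (T.p : T.K) ^ (i * r) • v := by
    intro i
    induction i with
    | zero => simp
    | succ i ih =>
      rw [Function.iterate_succ_apply', ih, hA.semilinear, h1, smul_smul, map_pow, map_natCast,
        ← pow_add]
      congr 2
      ring
  have hF : (T.D X m).F v = (T.p : T.K) ^ (T.f * r) • v := by rw [hA.power, hpow]
  apply one_tmul_eq_zero (K := T.K)
  refine h (TensorProduct.tmul T.K (1 : ℂ) v) ?_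
  refine (tw_inv hT.isLocal r (A := T.toLocal.H X m) _).2 ⟨?_, ?_, rfl⟩
  · change (T.D X m).F.baseChange ℂ (TensorProduct.tmul T.K (1 : ℂ) v) = _
    rw [LinearMap.baseChange_tmul, hF]
    have h3 : ((T.p : T.K) ^ (T.f * r)) = ((T.p ^ (T.f * r) : ℕ) : T.K) := by push_cast; rfl
    rw [h3, Nat.cast_smul_eq_nsmul]
    refine (map_nsmul (TensorProduct.mk T.K ℂ (T.D X m).V 1) (T.p ^ (T.f * r)) v).trans ?_
    change _ = ((((T.p ^ T.f : ℕ) : ℂ)) ^ r) • (TensorProduct.tmul T.K (1 : ℂ) v)
    have h4 : ((((T.p ^ T.f : ℕ) : ℂ)) ^ r) = ((T.p ^ (T.f * r) : ℕ) : ℂ) := by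
      push_cast
      ring
    rw [h4, Nat.cast_smul_eq_nsmul]
    rfl
  · change (T.D X m).N.baseChange ℂ (TensorProduct.tmul T.K (1 : ℂ) v) = 0
    rw [LinearMap.baseChange_tmul, h2, TensorProduct.tmul_zero]

/-- **The theorem.** -/
theorem main :
    ((∀ X r, 0 < r → NoCrystalline T X (2 * r - 1) r) ↔
        ∀ X m, WeightMonodromy T.toLocal X m) ∧
      ((∀ X m r, m < 2 * r → NoCrystalline T X m r) ↔
        ∀ X m, WeightMonodromy T.toLocal X m) := by
  obtain ⟨h1, h2⟩ := WL.main hT.isLocal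
  constructor
  · rw [← h1]
    exact forall_congr' fun X => forall_congr' fun r => forall_congr' fun _ =>
      ⟨noInvariants hT, noCrystalline hT⟩
  · rw [← h2]
    exact forall_congr' fun X => forall_congr' fun m => forall_congr' fun r =>
      forall_congr' fun _ => ⟨noInvariants hT, noCrystalline hT⟩

end Pool.Agent.N992.WP
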